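import Pool.Agent.Helper84.OX.St

/-!
Project OX (MP_2c90c1_al), module CNR: relative count of the beginnings of top arcs
-/

set_option autoImplicit false

namespace Pool.Agent.Helper63.OX

open Pool.Agent.Helper96.UT hiding StTOP TopV TopE tht Bd VC EC natEq_TOP cDvd_TOP
open Pool.Agent.Helper96.GU Pool.Agent.Helper84.OX
open Pool.Agent.Helper82.GU

theorem hCNR : StCNR := by
  classical
  intro α Z η Ω _ D Zv Ze hD hclo k₀ hk₀ hk₀V hlast
  set S := D ×ˢ Finset.range Z.n with hS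
  let T : Ω → ℤ → Prop := fun u k => TopV Z D η.η u k ∧ act u (pre Z.c k) ∉ Zv
  let A : Ω → ℤ → Prop := fun u k => TopE Z D η.η u k ∧ ed (act u (pre Z.c k)) (Z.c k) ∉ Ze
  have hTper : ∀ u ∈ D, ∀ i q : ℤ, T u (i + q * Z.n) ↔ T u i := by
    intro u hu i q
    change (TopV Z D η.η u (i + q * Z.n) ∧ act u (pre Z.c (i + q * Z.n)) ∉ Zv) ↔
      (TopV Z D η.η u i ∧ act u (pre Z.c i) ∉ Zv)
    rw [topV_per_SNG D η (hD u hu), act_pre_per (hD u hu)]
  have hAper : ∀ u ∈ D, ∀ i q : ℤ, A u (i + q * Z.n) ↔ A u i := by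
    intro u hu i q
    change (TopE Z D η.η u (i + q * Z.n) ∧
      ed (act u (pre Z.c (i + q * Z.n))) (Z.c (i + q * Z.n)) ∉ Ze) ↔
      (TopE Z D η.η u i ∧ ed (act u (pre Z.c i)) (Z.c i) ∉ Ze)
    rw [topE_per_SNG D η (hD u hu), act_pre_per (hD u hu), Z.per_mul]
  have hTA : ∀ u k, T u k → A u k := by
    intro u k h
    exact ⟨topVE_TOP η D h.1, fun he => h.2 (hclo.ed he).1⟩
  have hTA' : ∀ u k, T u (k + 1) → A u k := by
    intro u k h
    refine ⟨topV_succ_SNG D η u k h.1, fun he => h.2 ?_⟩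
    rw [← act_pre_succ]
    exact (hclo.ed he).2
  have hV : (out (VC Z D) Zv).card = (S.filter fun p => T p.1 p.2).card := by
    have himg : out (VC Z D) Zv = (S.filter fun p => T p.1 p.2).image
        fun p => act p.1 (pre Z.c (p.2 : ℤ)) := by
      ext x
      rw [mem_out]
      simp only [VC, Finset.mem_image]
      constructor
      · rintro ⟨⟨p0, hp0, rfl⟩, hx⟩
        obtain ⟨p, hp, hmax⟩ := Finset.exists_max_image
          (S.filter fun p => act p.1 (pre Z.c (p.2 : ℤ)) = act p0.1 (pre Z.c (p0.2 : ℤ)))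
          (fun p => η.η (p.2 : ℤ)) ⟨p0, Finset.mem_filter.2 ⟨hp0, rfl⟩⟩
        rw [Finset.mem_filter] at hp
        refine ⟨p, Finset.mem_filter.2 ⟨hp.1, ?_, ?_⟩, hp.2⟩
        · intro u' hu' k' hk'
          obtain ⟨u'', hu'', i, hi, h1, h2, h3, h4⟩ := norm_TOP η D hD hu' k'
          rw [← h3]
          exact hmax (u'', i) (Finset.mem_filter.2 ⟨Finset.mem_product.2 ⟨hu'',
            Finset.mem_range.2 hi⟩, by rw [h1, hk', hp.2]⟩)
        · rw [hp.2]; exact hx
      · rintro ⟨p, hp, rfl⟩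
        exact ⟨⟨p, (Finset.mem_filter.1 hp).1, rfl⟩, (Finset.mem_filter.1 hp).2.2⟩
    rw [himg, Finset.card_image_of_injOn]
    intro p hp p' hp' h
    rw [Finset.mem_coe, Finset.mem_filter, hS, Finset.mem_product, Finset.mem_range] at hp hp'
    have h1 : η.η (p'.2 : ℤ) ≤ η.η (p.2 : ℤ) := hp.2.1 p'.1 hp'.1.1 _ h.symm
    have h2 : η.η (p.2 : ℤ) ≤ η.η (p'.2 : ℤ) := hp'.2.1 p.1 hp.1.1 _ h
    have h3 : p.2 = p'.2 := natEq_TOP hp.1.2 hp'.1.2 (η.inj _ _ (le_antisymm h2 h1))
    have h4 : p.1 = p'.1 := by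
      have h5 : act p.1 (pre Z.c (p.2 : ℤ)) = act p'.1 (pre Z.c (p'.2 : ℤ)) := h
      rw [h3] at h5
      exact act_inj h5
    exact Prod.ext h4 h3
  have hE : (out (EC Z D) Ze).card = (S.filter fun p => A p.1 p.2).card := by
    have himg : out (EC Z D) Ze = (S.filter fun p => A p.1 p.2).image
        fun p => ed (act p.1 (pre Z.c (p.2 : ℤ))) (Z.c (p.2 : ℤ)) := by
      ext x
      rw [mem_out]
      simp only [EC, Finset.mem_image]
      constructor
      · rintro ⟨⟨p0, hp0, rfl⟩, hx⟩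
        obtain ⟨p, hp, hmax⟩ := Finset.exists_max_image
          (S.filter fun p => ed (act p.1 (pre Z.c (p.2 : ℤ))) (Z.c (p.2 : ℤ)) =
            ed (act p0.1 (pre Z.c (p0.2 : ℤ))) (Z.c (p0.2 : ℤ)))
          (fun p => tht Z η.η (p.2 : ℤ)) ⟨p0, Finset.mem_filter.2 ⟨hp0, rfl⟩⟩
        rw [Finset.mem_filter] at hp
        refine ⟨p, Finset.mem_filter.2 ⟨hp.1, ?_, ?_⟩, hp.2⟩
        · intro u' hu' k' hk'
          obtain ⟨u'', hu'', i, hi, h1, h2, h3, h4⟩ := norm_TOP η D hD hu' k'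
          have h5 : tht Z η.η k' = tht Z η.η (i : ℤ) := by
            unfold tht
            rw [h2, h3, h4]
          rw [h5]
          exact hmax (u'', i) (Finset.mem_filter.2 ⟨Finset.mem_product.2 ⟨hu'',
            Finset.mem_range.2 hi⟩, by
              change ed (act u'' (pre Z.c (i : ℤ))) (Z.c (i : ℤ)) = _
              rw [h1, h2, hk', hp.2]⟩)
        · rw [hp.2]; exact hx
      · rintro ⟨p, hp, rfl⟩
        exact ⟨⟨p, (Finset.mem_filter.1 hp).1, rfl⟩, (Finset.mem_filter.1 hp).2.2⟩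
    rw [himg, Finset.card_image_of_injOn]
    intro p hp p' hp' h
    rw [Finset.mem_coe, Finset.mem_filter, hS, Finset.mem_product, Finset.mem_range] at hp hp'
    have h1 : tht Z η.η (p'.2 : ℤ) ≤ tht Z η.η (p.2 : ℤ) := hp.2.1 p'.1 hp'.1.1 _ h.symm
    have h2 : tht Z η.η (p.2 : ℤ) ≤ tht Z η.η (p'.2 : ℤ) := hp'.2.1 p.1 hp.1.1 _ h
    have h3 := le_antisymm h2 h1
    unfold tht at h3
    rcases ed_eq h with ⟨h4, h5⟩ | ⟨h4, h5⟩
    · have h6 : p.2 = p'.2 := by
        rw [h5] at h3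
        by_cases h7 : (Z.c (p.2 : ℤ)).2 = true
        · rw [if_pos h7, if_pos h7] at h3
          exact natEq_TOP hp.1.2 hp'.1.2 (η.inj _ _ h3)
        · rw [if_neg h7, if_neg h7] at h3
          have h8 := η.inj _ _ h3
          rw [add_sub_add_right_eq_sub] at h8
          exact natEq_TOP hp.1.2 hp'.1.2 h8
      have h7 : p.1 = p'.1 := by
        rw [← h6] at h4
        exact (act_inj h4).symm
      exact Prod.ext h7 h6
    · exfalso
      rw [h5] at h3
      have h6 : (bar (Z.c (p.2 : ℤ))).2 = !(Z.c (p.2 : ℤ)).2 := rfl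
      rw [h6] at h3
      cases h7 : (Z.c (p.2 : ℤ)).2
      · rw [h7] at h3
        simp only [Bool.false_eq_true, if_false, Bool.not_false, if_true] at h3
        have h8 := cDvd_TOP (η.inj _ _ h3)
        exact Z.red (p.2 : ℤ) (h8.trans h5)
      · rw [h7] at h3
        simp only [if_true, Bool.not_true, Bool.false_eq_true, if_false] at h3
        have h8 := cDvd_TOP (η.inj _ _ h3)
        apply Z.red (p'.2 : ℤ)
        rw [← h8, h5, bar_bar]
  -- every cell has a beginning of a top arc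
  have hex : ∀ u ∈ D, ∃ i : ℕ, i < Z.n ∧ A u i ∧ ¬ T u i := by
    intro u hu
    by_contra hcon
    push Not at hcon
    have hAT : ∀ k : ℤ, A u k → T u k := by
      intro k hk
      obtain ⟨i, q, hi, rfl⟩ := mod_nat Z k
      rw [hTper u hu]
      exact hcon i hi ((hAper u hu i q).1 hk)
    have hT0 : ∀ q : ℤ, T u (k₀ + q * Z.n) := by
      intro q
      rw [hTper u hu]
      refine ⟨fun u' _ k' _ => hk₀ k', hk₀V u hu⟩
    have hstep : ∀ k, T u (k + 1) → T u k := fun k hk => hAT k (hTA' u k hk)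
    have hdown : ∀ (k : ℤ) (t : ℕ), T u (k + t) → T u k := by
      intro k t
      induction t with
      | zero =>
        intro h
        simpa using h
      | succ t ih =>
        intro h
        apply ih
        apply hstep
        have e : k + ((t + 1 : ℕ) : ℤ) = k + t + 1 := by push_cast; ring
        rwa [e] at h
    have hall : ∀ k, T u k := by
      intro k
      have hn : (0 : ℤ) < Z.n := by exact_mod_cast Z.pos
      have hk : k ≤ k₀ + (|k - k₀|) * Z.n := by
        have h1 : k - k₀ ≤ |k - k₀| := le_abs_self _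
        have h2 : 0 ≤ |k - k₀| := abs_nonneg _
        nlinarith
      obtain ⟨t, ht⟩ := Int.le.dest hk
      exact hdown k t (by rw [ht]; exact hT0 _)
    obtain ⟨k, hk⟩ := hlast u hu
    rcases hk with hk | hk
    · exact hk (hall k).1
    · exact (hall k).2 hk
  choose! f hf1 hf2 using hex
  have hDle : D.card ≤ (S.filter fun p => A p.1 p.2 ∧ ¬ T p.1 p.2).card := by
    refine Finset.card_le_card_of_injOn (fun u => (u, f u)) ?_ ?_
    · intro u hu
      rw [Finset.mem_coe] at hu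
      rw [Finset.mem_coe, Finset.mem_filter, hS, Finset.mem_product, Finset.mem_range]
      exact ⟨⟨hu, hf1 u hu⟩, hf2 u hu⟩
    · intro u _ u' _ h
      exact (Prod.mk.inj h).1
  rw [hV, hE]
  have hsplit := Finset.card_filter_add_card_filter_not
    (s := S.filter fun p => A p.1 p.2) (fun p => T p.1 p.2)
  rw [Finset.filter_filter, Finset.filter_filter] at hsplit
  have e1 : (S.filter fun p => A p.1 p.2 ∧ T p.1 p.2) = S.filter fun p => T p.1 p.2 := by
    apply Finset.filter_congr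
    intro p _
    exact ⟨fun h => h.2, fun h => ⟨hTA _ _ h, h⟩⟩
  rw [e1] at hsplit
  omega

end Pool.Agent.Helper63.OX
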