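import Pool.Agent.Helper84.OX.St

/-!
Project OX (MP_2c90c1_al), module EX2: existence of the complexes
-/

set_option autoImplicit false

namespace Pool.Agent.Helper63.OX

open Pool.Agent.Helper96.UT hiding StTOP TopV TopE tht Bd VC EC
open Pool.Agent.Helper96.GU Pool.Agent.Helper84.OX

/-- Finitely many lists suffice. -/
private theorem fin_lists {α : Type} (Z : Cyc α) (g : FreeGroup α)
    (hg : g ∈ Subgroup.closure {x : FreeGroup α | ∃ l : List ℕ, x = ch Z l * Z.s * (ch Z l)⁻¹}) :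
    ∃ W : Finset (List ℕ), g ∈ Subgroup.closure {x : FreeGroup α | ∃ l ∈ W,
      x = ch Z l * Z.s * (ch Z l)⁻¹} := by
  classical
  induction hg using Subgroup.closure_induction with
  | mem x hx =>
    obtain ⟨l, rfl⟩ := hx
    exact ⟨{l}, Subgroup.subset_closure ⟨l, by simp, rfl⟩⟩
  | one => exact ⟨∅, one_mem _⟩
  | mul a b _ _ iha ihb =>
    obtain ⟨W₁, h2⟩ := iha
    obtain ⟨W₂, h4⟩ := ihb
    refine ⟨W₁ ∪ W₂, mul_mem ?_ ?_⟩
    · refine Subgroup.closure_mono ?_ h2
      rintro x ⟨p, hp, rfl⟩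
      exact ⟨p, Finset.mem_union_left _ hp, rfl⟩
    · refine Subgroup.closure_mono ?_ h4
      rintro x ⟨p, hp, rfl⟩
      exact ⟨p, Finset.mem_union_right _ hp, rfl⟩
  | inv a _ iha =>
    obtain ⟨W₁, h2⟩ := iha
    exact ⟨W₁, inv_mem h2⟩

private theorem fin_lists2 {α : Type} (Z : Cyc α) (G₀ : Finset (FreeGroup α))
    (hG : ∀ g ∈ G₀, g ∈ Subgroup.closure {x : FreeGroup α | ∃ l : List ℕ,
      x = ch Z l * Z.s * (ch Z l)⁻¹}) :
    ∃ W : Finset (List ℕ), ∀ g ∈ G₀, g ∈ Subgroup.closure {x : FreeGroup α | ∃ l ∈ W,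
      x = ch Z l * Z.s * (ch Z l)⁻¹} := by
  classical
  induction G₀ using Finset.induction_on with
  | empty => exact ⟨∅, by simp⟩
  | insert a s _ ih =>
    obtain ⟨W₁, h1⟩ := ih fun g hg => hG g (Finset.mem_insert_of_mem hg)
    obtain ⟨W₂, h2⟩ := fin_lists Z a (hG a (Finset.mem_insert_self _ _))
    refine ⟨W₁ ∪ W₂, ?_⟩
    intro g hg
    rcases Finset.mem_insert.1 hg with rfl | hg
    · refine Subgroup.closure_mono ?_ h2
      rintro x ⟨p, hp, rfl⟩
      exact ⟨p, Finset.mem_union_right _ hp, rfl⟩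
    · refine Subgroup.closure_mono ?_ (h1 g hg)
      rintro x ⟨p, hp, rfl⟩
      exact ⟨p, Finset.mem_union_left _ hp, rfl⟩

theorem hEX2 : StCHW → StSTP → StEX2 := by
  classical
  intro hCHW hSTP α r Z hr G₀ W₀ hG
  obtain ⟨-, -, chw3, chw4, -⟩ := hCHW α r Z hr
  obtain ⟨W₁, hW₁⟩ := fin_lists2 Z G₀ fun g hg => hSTP α r Z hr g (hG g hg)
  set W : Finset (List ℕ) := (W₀ ∪ W₁ ∪ {[]}).biUnion (fun l => l.inits.toFinset) with hW
  have memW : ∀ l' : List ℕ, l' ∈ W ↔ ∃ l ∈ W₀ ∪ W₁ ∪ {[]}, l' <+: l := by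
    intro l'
    rw [hW, Finset.mem_biUnion]
    simp only [List.mem_toFinset, List.mem_inits]
  have hpre : ∀ l ∈ W, ∀ l' : List ℕ, l' <+: l → l' ∈ W := by
    intro l hl l' hl'
    obtain ⟨l₂, h1, h2⟩ := (memW l).1 hl
    exact (memW l').2 ⟨l₂, h1, hl'.trans h2⟩
  have hnil : [] ∈ W := (memW []).2 ⟨[], by simp, List.prefix_rfl⟩
  have hW0 : ∀ l ∈ W₀, ∀ l' : List ℕ, l' <+: l → l' ∈ W := by
    intro l hl l' hl'
    exact (memW l').2 ⟨l, Finset.mem_union_left _ (Finset.mem_union_left _ hl), hl'⟩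
  have hW1 : ∀ l ∈ W₁, l ∈ W := by
    intro l hl
    exact (memW l).2 ⟨l, Finset.mem_union_left _ (Finset.mem_union_right _ hl), List.prefix_rfl⟩
  set L₁ : Subgroup (FreeGroup α) := Subgroup.closure {x : FreeGroup α | ∃ l ∈ W,
    x = ch Z l * Z.s * (ch Z l)⁻¹} with hL₁
  have hLN : L₁ ≤ NT r Z := by
    refine (Subgroup.closure_le _).2 ?_
    rintro x ⟨l, hl, rfl⟩
    exact chw4 l
  have hgen : ∀ l ∈ W, ch Z l * Z.s * (ch Z l)⁻¹ ∈ L₁ := fun l hl =>
    Subgroup.subset_closure ⟨l, hl, rfl⟩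
  let v : FreeGroup α ⧸ L₁ := ((1 : FreeGroup α) : FreeGroup α ⧸ L₁)
  have hv : ∀ g h : FreeGroup α, act v g = act v h ↔ g * h⁻¹ ∈ L₁ := act_coset_eq_EXZ L₁
  have hv1 : ∀ g ∈ L₁, act v g = v := by
    intro g hg
    have := (hv g 1).2 (by simpa using hg)
    rw [this, act_one]
  have hv2 : ∀ g, act v g = v → g ∈ L₁ := by
    intro g hg
    have := (hv g 1).1 (by rw [hg, act_one])
    simpa using this
  have hrot : ∀ l ∈ W, act v (ch Z l * Z.s) = act v (ch Z l) := by
    intro p hp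
    rw [hv]
    exact hgen p hp
  set C : Finset (FreeGroup α ⧸ L₁) := W.image fun l => act v (ch Z l) with hC
  have hmemC : ∀ l ∈ W, act v (ch Z l) ∈ C := fun l hl => Finset.mem_image_of_mem _ hl
  have hfix : ∀ u ∈ C, act u Z.s = u := by
    intro u hu
    obtain ⟨l, hl, rfl⟩ := Finset.mem_image.1 hu
    rw [← act_mul]
    exact hrot l hl
  set ρ : (FreeGroup α ⧸ L₁) → ℕ := fun u =>
    sInf {m : ℕ | ∃ l ∈ W, act v (ch Z l) = u ∧ l.length = m} with hρ
  -- transfer of values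
  have htr : ∀ a b : List (α × Bool), RU (io r a) → RU (io r b) →
      act v (FreeGroup.mk a) = act v (FreeGroup.mk b) → io r a = io r b := by
    intro a b ha hb hab
    have h1 := (hv _ _).1 hab
    obtain ⟨w, hw1, hw2⟩ := fVNT α r Z hr _ (hLN h1)
    have h3 : io r (w ++ b) = io r b := by rw [io_append, hw2, one_mul]
    have h4 : FreeGroup.mk (w ++ b) = FreeGroup.mk a := by
      rw [mk_append, hw1, inv_mul_cancel_right]
    rw [← h3]
    exact RU_uniq ha (by rw [h3]; exact hb) h4.symm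
  have hmk : ∀ (l : List ℕ) (i : ℕ), act (act v (ch Z l)) (pre Z.c (i : ℤ)) =
      act v (FreeGroup.mk (wd Z l ++ seg Z.c 0 i)) := by
    intro l i
    rw [mk_append, mk_wd, mk_seg, pre_zero, zero_add, inv_one, one_mul, act_mul]
  have hru : ∀ q : List (α × Bool), InE (EC Z C : Set ((FreeGroup α ⧸ L₁) × α)) v q →
      RU (io r q) := by
    intro q
    induction q using List.reverseRecOn with
    | nil => intro _; exact RU_nil r
    | append_singleton q x ih =>
      intro h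
      rw [InE_append] at h
      have hq := ih h.1
      have he : ed (act v (FreeGroup.mk q)) x ∈ EC Z C := h.2.1
      obtain ⟨u, hu, k, hk⟩ := (mem_EC' Z C hfix _).1 he
      obtain ⟨i, a, -, rfl⟩ := mod_nat Z k
      rw [act_pre_per (hfix u hu), Z.per_mul] at hk
      obtain ⟨l, hl, rfl⟩ := Finset.mem_image.1 hu
      rcases ed_eq hk with ⟨h1, h2⟩ | ⟨h1, h2⟩
      · rw [hmk] at h1
        have h3 : io r q = io r (wd Z l ++ seg Z.c 0 i) := htr _ _ hq (chw3 l i) h1
        have h4 : io r (q ++ [x]) = io r (wd Z l ++ seg Z.c 0 (i + 1)) := by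
          rw [io_append, h3, ← io_append, h2, seg_succ, zero_add, List.append_assoc]
        rw [h4]
        exact chw3 l (i + 1)
      · rw [act_pre_succ] at h1
        have h1' : act v (FreeGroup.mk q) =
            act v (FreeGroup.mk (wd Z l ++ seg Z.c 0 (i + 1))) := by
          rw [h1, ← hmk]
          push_cast
          rfl
        have h3 : io r q = io r (wd Z l ++ seg Z.c 0 (i + 1)) := htr _ _ hq (chw3 l (i + 1)) h1'
        have h5 : wd Z l ++ seg Z.c 0 (i + 1) = (wd Z l ++ seg Z.c 0 i) ++ [Z.c (i : ℤ)] := by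
          rw [seg_succ, zero_add, List.append_assoc]
        have h6 := chw3 l (i + 1)
        rw [h5] at h6 h3
        have h4 : io r (q ++ [x]) = io r (wd Z l ++ seg Z.c 0 i) := by
          rw [io_append, h3, ← io_append, h2]
          exact RU_back h6
        rw [h4]
        exact chw3 l i
  refine ⟨FreeGroup α ⧸ L₁, inferInstance, v, C, ρ, ⟨?_, ⟨fun g hg => hLN (hv2 g hg), hru⟩,
    cpx_EC Z C hfix, ?_, ?_⟩, ?_, ?_⟩
  · have h := hmemC [] hnil
    rw [ch_nil, act_one] at h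
    exact h
  · intro φ hφ _ x q _ hx
    have key : ∀ g, g ∈ L₁ → Sa φ v g = 0 := by
      intro g hg
      rw [hL₁] at hg
      induction hg using Subgroup.closure_induction with
      | mem z hz =>
        obtain ⟨p, hp, rfl⟩ := hz
        have h1 : Sa φ (act v (ch Z p)) Z.s = 0 := hφ _ (hmemC p hp)
        rw [Sa_mul, Sa_mul, hrot p hp, h1, Sa_inv]
        abel
      | one => exact Sa_one φ v
      | mul a b ha hb iha ihb =>
        have ha' : act v a = v := hv1 a ha
        rw [Sa_mul, iha, ha', ihb, add_zero]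
      | inv a ha iha =>
        have ha' : act v a = v := hv1 a ha
        have h2 := Sa_inv φ v a
        rw [ha', iha, neg_zero] at h2
        exact h2
    obtain ⟨a, rfl⟩ := QuotientGroup.mk_surjective x
    have hy : ((a : FreeGroup α) : FreeGroup α ⧸ L₁) = act v a⁻¹ := by
      rw [show act v a⁻¹ = _ from act_coset_EXZ L₁ a⁻¹, inv_inv]
    rw [hy] at hx ⊢
    rw [← act_mul] at hx
    have h3 := key _ ((hv _ _).1 hx)
    rw [Sa_mul, Sa_mul, hx, Sa_inv, Sa_mk] at h3
    have h4 : Sm φ (act v a⁻¹) q = Sa φ v a⁻¹ + Sm φ (act v a⁻¹) q + -Sa φ v a⁻¹ := by abel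
    rw [h4, h3]
  · intro u hu
    obtain ⟨l₀, hl₀, hlu₀⟩ := Finset.mem_image.1 hu
    have hne : {m : ℕ | ∃ l ∈ W, act v (ch Z l) = u ∧ l.length = m}.Nonempty :=
      ⟨l₀.length, l₀, hl₀, hlu₀, rfl⟩
    obtain ⟨l, hl, hlu, hlen⟩ := Nat.sInf_mem hne
    rcases List.eq_nil_or_concat l with rfl | ⟨l', k, rfl⟩
    · left
      rw [← hlu, ch_nil, act_one]
    · right
      have hl' : l' ∈ W := hpre _ hl l' (by simp)
      refine ⟨act v (ch Z l'), hmemC l' hl', (k : ℤ), ?_, ?_⟩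
      · have h1 : ρ (act v (ch Z l')) ≤ l'.length := Nat.sInf_le ⟨l', hl', rfl, rfl⟩
        have h2 : ρ u = (l'.concat k).length := hlen.symm
        rw [h2, List.length_concat]
        omega
      · rw [List.concat_eq_append, ch_concat] at hlu
        rw [← act_mul]
        exact hlu
  · intro l hl l' hl'
    exact hmemC l' (hW0 l hl l' hl')
  · intro g hg
    apply hv1
    refine Subgroup.closure_mono ?_ (hW₁ g hg)
    rintro x ⟨l, hl, rfl⟩
    exact ⟨l, hW1 l hl, rfl⟩

end Pool.Agent.Helper63.OX
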