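import Pool.Agent.Helper84.OX.St

/-!
Project OX (MP_2c90c1_al), modules PRV and PRE: vertices and edges of the lifts
-/

set_option autoImplicit false

namespace Pool.Agent.Helper63.OX

open Pool.Agent.Helper96.UT hiding StTOP TopV TopE tht Bd VC EC
open Pool.Agent.Helper96.GU Pool.Agent.Helper84.OX

section

variable {α : Type} {Z : Cyc α} {Ω : Type} [MulAction (FreeGroup α) Ω] {X : Type} [LinearOrder X]
  [MulAction (FreeGroup α) X] {x₀ : X}

private theorem mem_VL (hX : Hgt Z X x₀) {C : Finset Ω} (hC : ∀ u ∈ C, act u Z.s = u) (y : Ω × X) :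
    y ∈ VC Z (lf x₀ C) ↔ ∃ u ∈ C, ∃ k : ℤ, act u (pre Z.c k) = y.1 ∧ act x₀ (pre Z.c k) = y.2 := by
  rw [mem_VC' Z (lf x₀ C) (lf_fix hX hC)]
  constructor
  · rintro ⟨û, hu, k, rfl⟩
    obtain ⟨h1, h2⟩ := mem_lf.1 hu
    refine ⟨û.1, h1, k, ?_, ?_⟩
    · rw [act_prod]
    · rw [act_prod, h2]
  · rintro ⟨u, hu, k, h1, h2⟩
    refine ⟨(u, x₀), mem_lf.2 ⟨hu, rfl⟩, k, ?_⟩
    rw [act_prod]
    exact Prod.ext h1 h2

private theorem mem_EL (hX : Hgt Z X x₀) {C : Finset Ω} (hC : ∀ u ∈ C, act u Z.s = u)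
    (e : (Ω × X) × α) :
    e ∈ EC Z (lf x₀ C) ↔ ∃ u ∈ C, ∃ k : ℤ, ed (act u (pre Z.c k)) (Z.c k) = (e.1.1, e.2) ∧
      act x₀ (pre Z.c (tl Z k)) = e.1.2 := by
  rw [mem_EC' Z (lf x₀ C) (lf_fix hX hC)]
  constructor
  · rintro ⟨û, hu, k, rfl⟩
    obtain ⟨h1, h2⟩ := mem_lf.1 hu
    refine ⟨û.1, h1, k, ?_, ?_⟩
    · rw [ed_tl, ed_tl, act_prod]
    · rw [ed_tl, act_prod, h2]
  · rintro ⟨u, hu, k, h1, h2⟩
    refine ⟨(u, x₀), mem_lf.2 ⟨hu, rfl⟩, k, ?_⟩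
    rw [ed_tl, act_prod]
    rw [ed_tl] at h1
    obtain ⟨h3, h4⟩ := Prod.mk.inj h1
    refine Prod.ext (Prod.ext h3 h2) h4

private theorem tl_end {Θ : Type} [MulAction (FreeGroup α) Θ] (u : Θ) (k : ℤ) :
    act (act u (pre Z.c (tl Z k))) (lt ((Z.c k).1, true)) =
      act u (pre Z.c (if (Z.c k).2 then k + 1 else k)) := by
  rcases hb : (Z.c k).2 with _ | _
  · have h1 : tl Z k = k + 1 := by unfold tl; simp [hb]
    have h2 : (((Z.c k).1, true) : α × Bool) = bar (Z.c k) := by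
      unfold bar; rw [hb]; rfl
    rw [h1, h2, lt_bar, ← act_pre_succ]
    simp only [Bool.false_eq_true, if_false]
    exact act_inv_eq rfl
  · have h1 : tl Z k = k := by unfold tl; simp [hb]
    have h2 : (((Z.c k).1, true) : α × Bool) = Z.c k := Prod.ext rfl hb.symm
    rw [h1, h2, act_pre_succ]
    simp

end

theorem hPRV : StPRV := by
  classical
  intro α Z Ω _ X _ _ x₀ hX C hC
  constructor
  · have hinj : Set.InjOn (fun y : Ω × X => y.1)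
        (out (VC Z (lf x₀ C)) (ZV Z C x₀) : Set (Ω × X)) := by
      intro y hy y' hy' h
      rw [Finset.mem_coe, mem_out] at hy hy'
      have h : y.1 = y'.1 := h
      obtain ⟨u, hu, k, h1, h2⟩ := (mem_VL hX hC y).1 hy.1
      obtain ⟨u', hu', k', h1', h2'⟩ := (mem_VL hX hC y').1 hy'.1
      refine Prod.ext h ?_
      rcases lt_trichotomy y.2 y'.2 with h3 | h3 | h3
      · exact absurd ⟨u', hu', k', by rw [h1', h], by rw [h2']; exact h3⟩ hy.2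
      · exact h3
      · exact absurd ⟨u, hu, k, by rw [h1, h], by rw [h2]; exact h3⟩ hy'.2
    rw [← Finset.card_image_of_injOn hinj]
    congr 1
    ext w
    rw [Finset.mem_image]
    constructor
    · rintro ⟨y, hy, rfl⟩
      obtain ⟨u, hu, k, h1, h2⟩ := (mem_VL hX hC y).1 (mem_out.1 hy).1
      exact (mem_VC' Z C hC _).2 ⟨u, hu, k, h1⟩
    · intro hw
      obtain ⟨u₀, hu₀, k₀, hk₀⟩ := (mem_VC' Z C hC _).1 hw
      obtain ⟨i₀, q₀, hi₀, rfl⟩ := mod_nat Z k₀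
      rw [act_pre_per (hC u₀ hu₀)] at hk₀
      obtain ⟨p, hp, hmax⟩ := Finset.exists_max_image
        ((C ×ˢ Finset.range Z.n).filter fun p => act p.1 (pre Z.c (p.2 : ℤ)) = w)
        (fun p => act x₀ (pre Z.c (p.2 : ℤ)))
        ⟨(u₀, i₀), Finset.mem_filter.2 ⟨Finset.mem_product.2 ⟨hu₀, Finset.mem_range.2 hi₀⟩, hk₀⟩⟩
      rw [Finset.mem_filter, Finset.mem_product] at hp
      refine ⟨(w, act x₀ (pre Z.c (p.2 : ℤ))), mem_out.2 ⟨(mem_VL hX hC _).2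
        ⟨p.1, hp.1.1, p.2, hp.2, rfl⟩, ?_⟩, rfl⟩
      rintro ⟨u', hu', k', h1, h2⟩
      obtain ⟨i', q', hi', rfl⟩ := mod_nat Z k'
      rw [act_pre_per (hC u' hu')] at h1
      rw [act_pre_per hX.fix] at h2
      have h3 := hmax (u', i') (Finset.mem_filter.2 ⟨Finset.mem_product.2 ⟨hu',
        Finset.mem_range.2 hi'⟩, h1⟩)
      exact absurd h2 (not_lt.2 h3)
  · intro k₀ hk₀ y hy
    obtain ⟨h1, h2⟩ := mem_lf.1 hy
    rintro ⟨u', hu', k', h3, h4⟩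
    rw [act_prod, h2] at h4
    exact absurd h4 (not_lt.2 (hk₀ k'))

theorem hPRE : StPRE := by
  classical
  intro α Z Ω _ X _ _ x₀ hX C hC
  constructor
  · rintro ⟨w, z⟩ a ⟨u, hu, k, h1, h2⟩
    rw [ed_tl] at h1
    obtain ⟨h3, h4⟩ := Prod.mk.inj h1
    simp only at h2 h3 h4
    subst h4
    refine ⟨⟨u, hu, tl Z k, h3, h2⟩, ⟨u, hu, (if (Z.c k).2 then k + 1 else k), ?_, ?_⟩⟩
    · rw [act_prod]
      simp only
      rw [← h3, tl_end]
    · rw [act_prod]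
      simp only
      rw [← tl_end]
      exact hX.lt h2 _
  · have hinj : Set.InjOn (fun e : (Ω × X) × α => (e.1.1, e.2))
        (out (EC Z (lf x₀ C)) (ZE Z C x₀) : Set ((Ω × X) × α)) := by
      intro y hy y' hy' h
      rw [Finset.mem_coe, mem_out] at hy hy'
      have h : (y.1.1, y.2) = (y'.1.1, y'.2) := h
      obtain ⟨u, hu, k, h1, h2⟩ := (mem_EL hX hC y).1 hy.1
      obtain ⟨u', hu', k', h1', h2'⟩ := (mem_EL hX hC y').1 hy'.1
      obtain ⟨h5, h6⟩ := Prod.mk.inj h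
      refine Prod.ext (Prod.ext h5 ?_) h6
      rcases lt_trichotomy y.1.2 y'.1.2 with h3 | h3 | h3
      · exact absurd ⟨u', hu', k', by rw [h1', h], by rw [h2']; exact h3⟩ hy.2
      · exact h3
      · exact absurd ⟨u, hu, k, by rw [h1, h], by rw [h2]; exact h3⟩ hy'.2
    rw [← Finset.card_image_of_injOn hinj]
    congr 1
    ext f
    rw [Finset.mem_image]
    constructor
    · rintro ⟨y, hy, rfl⟩
      obtain ⟨u, hu, k, h1, h2⟩ := (mem_EL hX hC y).1 (mem_out.1 hy).1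
      exact (mem_EC' Z C hC _).2 ⟨u, hu, k, h1⟩
    · intro hw
      obtain ⟨u₀, hu₀, k₀, hk₀⟩ := (mem_EC' Z C hC _).1 hw
      obtain ⟨i₀, q₀, hi₀, rfl⟩ := mod_nat Z k₀
      rw [act_pre_per (hC u₀ hu₀), Z.per_mul] at hk₀
      obtain ⟨p, hp, hmax⟩ := Finset.exists_max_image
        ((C ×ˢ Finset.range Z.n).filter fun p => ed (act p.1 (pre Z.c (p.2 : ℤ))) (Z.c (p.2 : ℤ)) = f)
        (fun p => act x₀ (pre Z.c (tl Z (p.2 : ℤ))))
        ⟨(u₀, i₀), Finset.mem_filter.2 ⟨Finset.mem_product.2 ⟨hu₀, Finset.mem_range.2 hi₀⟩, hk₀⟩⟩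
      rw [Finset.mem_filter, Finset.mem_product] at hp
      refine ⟨((f.1, act x₀ (pre Z.c (tl Z (p.2 : ℤ)))), f.2), mem_out.2 ⟨(mem_EL hX hC _).2
        ⟨p.1, hp.1.1, p.2, hp.2, rfl⟩, ?_⟩, rfl⟩
      rintro ⟨u', hu', k', h1, h2⟩
      obtain ⟨i', q', hi', rfl⟩ := mod_nat Z k'
      rw [act_pre_per (hC u' hu'), Z.per_mul] at h1
      rw [tl_add_mul, act_pre_per hX.fix] at h2
      have h3 := hmax (u', i') (Finset.mem_filter.2 ⟨Finset.mem_product.2 ⟨hu',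
        Finset.mem_range.2 hi'⟩, h1⟩)
      exact absurd h2 (not_lt.2 h3)

end Pool.Agent.Helper63.OX
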